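import Pool.Agent.MP_3ce0a0_al.H79.Y3B

/-
Shape A: an eigenspace of the central involution is invariant, or the system is degenerate.
-/

namespace Pool.Agent.MP_3ce0a0_al.H79.Y

open Equiv Module Pool.Agent.MP_3ce0a0_al.H79.X

namespace H22

variable {H : Type} [AddCommGroup H] [Module ℂ H] {N : NS (Fin 3) (GH H)} {e : Fin 3 → H} {σ : ℂ}

lemma ερ {a b c : Fin 3} (d : D3 a b c) (v : H) : N.ε c (N.ρ a b v) = N.ρ a b (N.ε c v) :=
  gap (N.ε_other a b c d.1 d.2.1 d.2.2).eq v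

lemma D_neg (h : DA N.toWS e σ) {c : Fin 3} {v : H} (hv : N.ε c v = -v) : DD N.toWS v = -v := by
  obtain ⟨z, g, hg, rfl⟩ := h.neg hv
  rw [map_add, map_smul, DD_one (h.2.1 c).2, DD_univ hg]
  module

lemma Dρ_neg (h : DA N.toWS e σ) {a b c : Fin 3} (d : D3 a b c) {v : H} (hv : N.ε c v = -v) :
    DD N.toWS (N.ρ a b v) = -N.ρ a b v :=
  D_neg h (c := c) (by rw [ερ d, hv, map_neg])

lemma lamv {a b : Fin 3} (hab : a ≠ b) (v : H) :
    N.lam a b v = DD N.toWS (N.ρ a b (DD N.toWS v)) := gap (lam_eq N hab) v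

lemma K_neg (h : DA N.toWS e σ) {a b c : Fin 3} (d : D3 a b c) {w : H} (hw : N.ε c w = -w) :
    KK N a b w = w := by
  have hv : N.ε c ((N.lam a b)⁻¹ w) = -(N.lam a b)⁻¹ w := by
    have c1 : Commute (N.ε c) (N.lam a b)⁻¹ := by
      rw [lam_inv N d.1]
      exact ((ε_commute N.toWS c a).mul_right (N.ε_other a b c d.1 d.2.1 d.2.2)).mul_right
        (ε_commute N.toWS c a)
    have := gap c1.eq w
    rw [gmul, gmul, hw, map_neg] at this
    exact this
  have h1 := lamv (N := N) d.1 ((N.lam a b)⁻¹ w)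
  rw [ginv, D_neg h hv, map_neg, map_neg, Dρ_neg h d hv, neg_neg] at h1
  exact h1.symm

lemma K_ea (hI : In3 N) (h : DA N.toWS e σ) {a b c : Fin 3} (d : D3 a b c) :
    KK N a b (e a) = e a := by
  have := gap (hI a b c d) (e a)
  rwa [gmul, K_neg h d.perm.2.2.1 (Se_neg (h.2.1 a).2 (by simp)), gone] at this

lemma Dρ_ea (hI : In3 N) (h : DA N.toWS e σ) {a b c : Fin 3} (d : D3 a b c) :
    DD N.toWS (N.ρ a b (e a)) = -N.ρ a b (e a) := by
  have h1 := gap (KK_ρ N d.1).eq (e a)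
  have h2 := gap (KK_lam N a b) (e a)
  rw [gmul, gmul, K_ea hI h d] at h1
  rw [gmul] at h2
  have h3 := (KK N a b).injective (h1.trans h2.symm)
  rw [lamv d.1, DD_one (h.2.1 a).2, map_neg, map_neg] at h3
  exact neg_eq_iff_eq_neg.1 h3.symm

lemma pos_ρ (h : DA N.toWS e σ) {a b c : Fin 3} (d : D3 a b c) {v : H} (hv : N.ε c v = v) :
    ∃ x y : ℂ, ∃ u ∈ Se N.toWS ∅, N.ρ a b v = x • e a + y • e b + u :=
  h.pos d (by rw [ερ d, hv])

lemma ρ_ea (hI : In3 N) (h : DA N.toWS e σ) {a b c : Fin 3} (d : D3 a b c) :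
    ∃ x y : ℂ, N.ρ a b (e a) = x • e a + y • e b := by
  obtain ⟨x, y, u, hu, k⟩ := pos_ρ h d (Se_pos (h.2.1 a).2 (a := c) (by simpa using d.2.1))
  have h1 := Dρ_ea hI h d
  rw [k, map_add, map_add, map_smul, map_smul, DD_one (h.2.1 a).2, DD_one (h.2.1 b).2,
    DD_zero hu] at h1
  have : u = 0 := half (by linear_combination (norm := module) h1)
  exact ⟨x, y, by rw [k, this, add_zero]⟩

lemma ρ_h (hI : In3 N) (h : DA N.toWS e σ) {a b c : Fin 3} (d : D3 a b c) {v : H}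
    (hv : v ∈ Se N.toWS ∅) : ∃ μ : ℂ, ∃ u ∈ Se N.toWS ∅, N.ρ a b v = μ • e b + u := by
  obtain ⟨x, y, u, hu, k⟩ := pos_ρ h d (Se_pos hv (a := c) (by simp))
  have h1 : N.lam a b v = -(x • e a) + (u - y • e b) := by
    rw [lamv d.1, DD_zero hv, k, map_add, map_add, map_smul, map_smul, DD_one (h.2.1 a).2,
      DD_one (h.2.1 b).2, DD_zero hu]
    module
  have h2 := gap (KK_lam N a b) v
  rw [gmul, h1, map_add, map_neg, map_smul, K_ea hI h d, k] at h2
  have eb := Se_pos (h.2.1 b).2 (a := a) (by simpa using d.1)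
  have eu := Se_pos hu (a := a) (by simp)
  have h3 := gap (ε_KK_left N d.1).eq (u - y • e b)
  have h4 : KK N a b (u - y • e b) = (2 * x) • e a + y • e b + u := by
    linear_combination (norm := module) h2
  rw [gmul, gmul, map_sub (N.ε a), map_smul, eb, eu, h4, map_add, map_add, map_smul, map_smul, eb,
    eu, Se_neg (h.2.1 a).2 (by simp)] at h3
  have h5 : (4 * x) • e a = 0 := by linear_combination (norm := module) -h3
  have h6 : x = 0 := by simpa [(h.2.1 a).1] using h5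
  exact ⟨y, u, hu, by rw [k, h6, zero_smul, zero_add]⟩

lemma move (h : DA N.toWS e σ) (p : Perm (Fin 3)) {a b : Fin 3} (hab : a ≠ b) (i : Fin 3) :
    N.ρ (p a) (p b) (e (p i)) = sg σ p • N.π p (N.ρ a b (e i)) := by
  have h1 := gap (N.π_ρ p a b hab) (e i)
  rw [gmul, gmul, h.2.2.1, map_smul] at h1
  rw [h1, smul_smul, sg_sq h.sq, one_smul]

lemma pair {a b a' b' : Fin 3} (h : a ≠ b) (h' : a' ≠ b') :
    ∃ p : Perm (Fin 3), p a = a' ∧ p b = b' := by
  obtain ⟨c, d⟩ := D3.ex h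
  obtain ⟨c', d'⟩ := D3.ex h'
  obtain ⟨p, h1, h2, -⟩ := d.trans d'
  exact ⟨p, h1, h2⟩

end H22

open H22

theorem sa1 : SA1 := by
  intro H _ _ _ N e σ hI h
  by_cases h1 : ∃ a b, a ≠ b ∧ ∃ x : ℂ, N.ρ a b (e a) = x • e a
  swap
  · refine Or.inl (Or.inl fun a b hab v hv => ?_)
    obtain ⟨c, d⟩ := D3.ex hab
    have ec := Se_neg (h.2.1 c).2 (a := c) (by simp)
    have k1 := Dρ_neg h d ec
    have k2 : DD N.toWS (N.ρ a b (e b)) = -N.ρ a b (e b) := by
      obtain ⟨x, y, k⟩ := ρ_ea hI h d.perm.2.2.1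
      have hy : y ≠ 0 := fun hy => h1 ⟨c, b, d.2.2, x, by rw [k, hy, zero_smul, add_zero]⟩
      obtain ⟨z, g, hg, k'⟩ := h.neg (c := c) (v := N.ρ a b (e c)) (by rw [ερ d, ec, map_neg])
      have c1 := gap (ρ_ρ_col N d).eq (e c)
      rw [gmul, gmul, k, k', map_add, map_add, map_smul, map_smul, map_smul] at c1
      have c2 := congrArg (fun w => (DD N.toWS : GH H) w) c1
      rw [map_add, map_add, map_smul, map_smul, map_smul, k1, Dρ_ea hI h d.perm.2.2.1,
        Dρ_neg h d.perm.2.2.1 (Se_neg hg (by simp))] at c2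
      refine smul_right_injective H hy ?_
      simp only
      linear_combination (norm := module) c2 + c1
    obtain ⟨x, y, z, u, hu, g, hg, rfl⟩ := h.dec d v
    simp only [map_add, map_smul, DD_one (h.2.1 _).2, DD_zero hu, DD_univ hg] at hv
    have : u = 0 := half (by linear_combination (norm := module) hv)
    simp only [this, map_add, map_smul, map_zero, k1, k2, Dρ_ea hI h d,
      Dρ_neg h d (Se_neg hg (a := c) (by simp))]
    module
  by_cases h2 : ∃ a b, a ≠ b ∧ ∃ w : ℂ, ∃ u ∈ Se N.toWS ∅, N.ρ a b (e b) = w • e b + u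
  swap
  · refine Or.inl (Or.inr fun a b hab v hv => ?_)
    obtain ⟨c, d⟩ := D3.ex hab
    obtain ⟨x, y, z, u, hu, g, hg, rfl⟩ := h.dec d v
    simp only [map_add, map_smul, DD_one (h.2.1 _).2, DD_zero hu, DD_univ hg] at hv
    have h0 : x • e a + y • e b + z • e c + g = 0 := half (by
      linear_combination (norm := module) -hv)
    rw [show x • e a + y • e b + z • e c + u + g = u by linear_combination (norm := module) h0]
    have d' := d.perm.2.2.1
    obtain ⟨μ, u1, hu1, k1⟩ := ρ_h hI h d hu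
    obtain ⟨ν, u2, hu2, k2⟩ := ρ_h hI h d' hu
    obtain ⟨μ', u3, hu3, k3⟩ := ρ_h hI h d' hu1
    obtain ⟨ν', u4, hu4, k4⟩ := ρ_h hI h d hu2
    obtain ⟨y1, w1, u5, hu5, k5⟩ := pos_ρ h d' (Se_pos (h.2.1 b).2 (a := a) (by simpa using hab))
    obtain ⟨y2, w2, u6, hu6, k6⟩ := pos_ρ h d (Se_pos (h.2.1 b).2 (a := c) (by simpa using d.2.2))
    have hy : y1 ≠ 0 := fun hy => h2 ⟨c, b, d.2.2, w1, u5, hu5, by rw [k5, hy, zero_smul, zero_add]⟩
    have c1 := gap (ρ_ρ_col N d).eq u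
    rw [gmul, gmul, k1, k2, map_add, map_add, map_smul, map_smul, k3, k4, k5, k6] at c1
    have := h.uniq d (x := ν * y2) (y := ν * w2 + ν' - μ * w1 - μ') (z := -(μ * y1))
      (u := ν • u6 + u4 - μ • u5 - u3) (g := 0)
      (sub_mem (sub_mem (add_mem (Submodule.smul_mem _ _ hu6) hu4) (Submodule.smul_mem _ _ hu5))
        hu3) (Submodule.zero_mem _) (by linear_combination (norm := module) c1)
    have hμ : μ = 0 := by simpa [hy] using this.2.2.1
    rw [k1, hμ, zero_smul, zero_add, DD_zero hu1]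
  refine Or.inr fun a b hab => ⟨?_, fun v hv => ?_⟩
  · obtain ⟨a', b', hab', x, k⟩ := h1
    obtain ⟨p, rfl, rfl⟩ := pair hab' hab
    rw [move h p hab', k, map_smul, h.2.2.1]
    exact Submodule.smul_mem _ _ (Submodule.smul_mem _ _ (Submodule.smul_mem _ _
      (Submodule.mem_span_singleton_self _)))
  · obtain ⟨c, d⟩ := D3.ex hab
    obtain ⟨u, hu, s, hs, rfl⟩ := Submodule.mem_sup.1 hv
    obtain ⟨t, rfl⟩ := Submodule.mem_span_singleton.1 hs
    obtain ⟨μ, u1, hu1, k1⟩ := ρ_h hI h d hu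
    have m : e b ∈ Se N.toWS ∅ ⊔ ℂ ∙ e b :=
      Submodule.mem_sup_right (Submodule.mem_span_singleton_self _)
    rw [map_add, map_smul, k1]
    refine add_mem (add_mem (Submodule.smul_mem _ _ m) (Submodule.mem_sup_left hu1))
      (Submodule.smul_mem _ _ ?_)
    obtain ⟨a', b', hab', w, u', hu', k⟩ := h2
    obtain ⟨p, rfl, rfl⟩ := pair hab' hab
    rw [move h p hab', k, map_add, map_smul, h.2.2.1]
    exact Submodule.smul_mem _ _ (add_mem (Submodule.smul_mem _ _ (Submodule.smul_mem _ _ m))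
      (Submodule.mem_sup_left (by simpa using π_Se p hu')))

end Pool.Agent.MP_3ce0a0_al.H79.Y
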